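import Pool.Agent.H654R5.PT.Stm

namespace Pool.Agent.H654R5.PT.PRM

theorem PRM_proof : S_PRM := by
  intro m hm
  obtain ⟨p, hp, hmp, hp2⟩ := Nat.exists_prime_lt_and_le_two_mul m (by omega)
  have hne : p ≠ 2 * m := by
    rintro rfl
    have := (Nat.prime_dvd_prime_iff_eq Nat.prime_two hp).1 ⟨m, rfl⟩
    omega
  have hmem : p ∈ (List.range m).map (fun i => m + i) := by
    rw [List.mem_map]
    exact ⟨p - m, List.mem_range.2 (by omega), by omega⟩
  have hsome : (((List.range m).map (fun i => m + i)).find?
      (fun p => decide (p.Prime))).isSome = true := by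
    rw [List.find?_isSome]
    exact ⟨p, hmem, by simpa using hp⟩
  obtain ⟨q, hq⟩ := Option.isSome_iff_exists.1 hsome
  have hl : leastPrime m = q := by
    unfold leastPrime
    rw [hq]
    rfl
  have h1 : q.Prime := by
    have := List.find?_some hq
    simpa using this
  have h2 := List.mem_of_find?_eq_some hq
  rw [List.mem_map] at h2
  obtain ⟨i, hi, rfl⟩ := h2
  rw [List.mem_range] at hi
  rw [hl]
  exact ⟨h1, by omega, by omega⟩

end Pool.Agent.H654R5.PT.PRM
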